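import Pool.Agent.Helper66.PF.Dd

/-!
# Project PF (MP_ad0dc2_nt): module REA, the first pair

The resultant of `z(T) - Z` and `s(T) ω - 3 v w(T)` over the quadratic algebra `ω² = 3 v g`.
-/

set_option autoImplicit false

namespace PF.Helper66

open Polynomial

private theorem C3 {R : Type} [CommRing R] : (C (3 : R) : R[X]) = 3 := map_ofNat C 3

private theorem C4 {R : Type} [CommRing R] : (C (4 : R) : R[X]) = 4 := map_ofNat C 4

private theorem idG {A : Type} [CommRing A] {o s c w g : A} (h : o * o = c * g) :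
    (o * s - c * w) * (-o * s - c * w) = c * (c * w ^ 2 - g * s ^ 2) := by
  linear_combination (-(s ^ 2)) * h

private theorem idA {A : Type} [CommRing A] {S W Zt V Zc N c f : A}
    (hcur : 3 * S * W ^ 2 + S ^ 3 + 4 * Zt ^ 3 = 4 * N) (hff : Zt - Zc = c * f) :
    S * (3 * V * W ^ 2 - (4 * (N - Zc ^ 3) - V) * S ^ 2) =
      4 * (N - Zc ^ 3) * (V - S ^ 3) + f * (-4 * V * c * (Zt ^ 2 + Zt * Zc + Zc ^ 2)) := by
  linear_combination V * hcur - 4 * V * (Zt ^ 2 + Zt * Zc + Zc ^ 2) * hff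

private theorem idB {A : Type} [CommRing A] {S W Zt Zc N c f : A}
    (hcur : 3 * S * W ^ 2 + S ^ 3 + 4 * Zt ^ 3 = 4 * N) (hff : Zt - Zc = c * f) :
    S * (3 * W ^ 2 + S ^ 2) =
      4 * (N - Zc ^ 3) + f * (-4 * c * (Zt ^ 2 + Zt * Zc + Zc ^ 2)) := by
  linear_combination hcur - 4 * (Zt ^ 2 + Zt * Zc + Zc ^ 2) * hff

private theorem star_omega {R : Type} [CommRing R] {a : R} :
    (starRingEnd (QuadraticAlgebra R a 0)) QuadraticAlgebra.omega = -QuadraticAlgebra.omega := by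
  rw [starRingEnd_apply]
  apply QuadraticAlgebra.ext
  · rw [QuadraticAlgebra.re_star, QuadraticAlgebra.re_neg, QuadraticAlgebra.omega_re, zero_mul, add_zero,
      neg_zero]
  · rw [QuadraticAlgebra.im_star, QuadraticAlgebra.im_neg]

theorem holds_REA : PF.StREA := by
  intro k _ _ n hn hπ s z w hC
  have hz1 : 1 ≤ z.natDegree := by rw [hC.dz]; norm_num
  have hz0 : z ≠ 0 := by
    rintro rfl
    simp at hz1
  obtain ⟨hm, hd⟩ := ff_monic hz1
  rw [hC.dz] at hd
  have hff := ff_eq hz0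
  -- the curve over `k[v][Z][T]`
  have hcur : 3 * s.map jj * (w.map jj) ^ 2 + (s.map jj) ^ 3 + 4 * (z.map jj) ^ 3 =
      4 * C (C (C n)) := by
    have h := congrArg (Polynomial.map (jj : k →+* k[X][X])) hC.eq
    simp only [Polynomial.map_add, Polynomial.map_mul, Polynomial.map_pow, Polynomial.map_ofNat, map_C] at h
    rw [h]
    show C (C (C (4 * n))) = 4 * C (C (C n))
    rw [C_mul, C_mul, C_mul, C4, C4, C4]
  -- the quadratic algebra
  obtain ⟨g, hg⟩ : ∃ g : k[X][X], g = 4 * (C (C n) - X ^ 3) - C X := ⟨_, rfl⟩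
  obtain ⟨a, ha⟩ : ∃ a : k[X][X], a = 3 * C X * g := ⟨_, rfl⟩
  let Q := QuadraticAlgebra (k[X][X]) a 0
  let ι : k[X][X] →+* Q := algebraMap (k[X][X]) Q
  let om : Q := QuadraticAlgebra.omega
  have hom : om * om = ι a := by
    have h := QuadraticAlgebra.omega_mul_omega_eq_algebraMap (R := k[X][X]) (a := a) (b := 0)
    rw [map_zero, zero_mul, add_zero] at h
    exact h
  have hstar : (starRingEnd Q) om = -om := star_omega
  obtain ⟨G, hG⟩ : ∃ G : Q[X], G = C om * (s.map jj).map ι - C (ι (3 * C X)) * (w.map jj).map ι :=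
    ⟨_, rfl⟩
  have hGs : G * G.map (starRingEnd Q) =
      (C (3 * C X) * (C (3 * C X) * (w.map jj) ^ 2 - C g * (s.map jj) ^ 2)).map ι := by
    have hι : (starRingEnd Q).comp ι = ι := star_comp
    have h1 : G.map (starRingEnd Q) = -(C om) * (s.map jj).map ι - C (ι (3 * C X)) * (w.map jj).map ι := by
      have h3 : (starRingEnd Q) (ι (3 * C X)) = ι (3 * C X) := by
        rw [← RingHom.comp_apply, hι]
      rw [hG, Polynomial.map_sub, Polynomial.map_mul, Polynomial.map_mul, map_C, map_C, hstar, h3,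
        Polynomial.map_map ι, Polynomial.map_map ι, hι, C_neg]
    have h2 : (C om : Q[X]) * C om = C (ι (3 * C X)) * C (ι g) := by
      have h3 : ι a = ι (3 * C X) * ι g := by
        rw [← map_mul]
        exact congrArg ι ha
      rw [← C_mul, hom, h3, C_mul]
    rw [h1, hG]
    simp only [Polynomial.map_sub, Polynomial.map_mul, Polynomial.map_pow, map_C]
    exact idG (A := Q[X]) h2
  obtain ⟨x, hx⟩ : ∃ x : Q, x = Dd ((ff z).map ι) G := ⟨_, rfl⟩
  have hnorm : QuadraticAlgebra.norm x =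
      Dd (ff z) (C (3 * C X) * (C (3 * C X) * (w.map jj) ^ 2 - C g * (s.map jj) ^ 2)) := by
    rw [hx]
    exact norm_Dd hm hGs
  rw [Dd_C_mul hm, hd] at hnorm
  -- the factors
  obtain ⟨E, hE⟩ : ∃ E, E = Dd (ff z) (C (3 * C X) * (w.map jj) ^ 2 - C g * (s.map jj) ^ 2) := ⟨_, rfl⟩
  obtain ⟨S1, hS1⟩ : ∃ S1, S1 = Dd (ff z) (3 * (w.map jj) ^ 2 + (s.map jj) ^ 2) := ⟨_, rfl⟩
  obtain ⟨hCt0, hCt⟩ := deg_Ct hz1 hC.ds
  obtain ⟨Ct, hCtd⟩ : ∃ Ct, Ct = Dd (ff z) (C (C X) - (s.map jj) ^ 3) := ⟨_, rfl⟩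
  rw [← hCtd] at hCt0 hCt
  rw [← hE] at hnorm
  have e1 : Dd (ff z) (s.map jj) * E = (4 * (C (C n) - X ^ 3)) ^ 5 * Ct := by
    rw [hE, ← Dd_mul hm, hCtd]
    have h1 : (s.map jj) * (C (3 * C X) * (w.map jj) ^ 2 - C g * (s.map jj) ^ 2) =
        C (4 * (C (C n) - X ^ 3)) * (C (C X) - (s.map jj) ^ 3) +
          ff z * (-4 * (C (C X) : k[X][X][X]) * C (jj z.leadingCoeff) *
            ((z.map jj) ^ 2 + z.map jj * C X + (C X) ^ 2)) := by
      have h2 : (C (3 * C X) : k[X][X][X]) = 3 * C (C X) := by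
        rw [C_mul, C3]
      have h3 : (C g : k[X][X][X]) = 4 * (C (C (C n)) - (C X) ^ 3) - C (C X) := by
        rw [hg, C_sub, C_mul, C_sub, C_pow, C4]
      have h4 : (C (4 * (C (C n) - X ^ 3)) : k[X][X][X]) = 4 * (C (C (C n)) - (C X) ^ 3) := by
        rw [C_mul, C_sub, C_pow, C4]
      rw [h2, h3, h4]
      exact idA (A := k[X][X][X]) hcur hff
    rw [h1, Dd_add_mul hm, Dd_C_mul hm, hd]
  have e2 : Dd (ff z) (s.map jj) * S1 = (4 * (C (C n) - X ^ 3)) ^ 5 := by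
    rw [hS1, ← Dd_mul hm]
    have h1 : (s.map jj) * (3 * (w.map jj) ^ 2 + (s.map jj) ^ 2) =
        C (4 * (C (C n) - X ^ 3)) +
          ff z * (-4 * (C (jj z.leadingCoeff) : k[X][X][X]) *
            ((z.map jj) ^ 2 + z.map jj * C X + (C X) ^ 2)) := by
      have h4 : (C (4 * (C (C n) - X ^ 3)) : k[X][X][X]) = 4 * (C (C (C n)) - (C X) ^ 3) := by
        rw [C_mul, C_sub, C_pow, C4]
      rw [h4]
      exact idB (A := k[X][X][X]) hcur hff
    rw [h1, Dd_add_mul hm, Dd_C, hd]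
  have hpi : (4 * (C (C n) - X ^ 3) : k[X][X]) = C (C (-4)) * (X ^ 3 - C (C n)) := by
    have : (C (C (-4 : k)) : k[X][X]) = -4 := by
      rw [C_neg, C_neg, C4, C4]
    rw [this]
    ring
  have h4u : IsUnit (C (C (-4 : k)) : k[X][X]) := by
    have h : (-4 : k) ≠ 0 := by norm_num
    exact isUnit_C.2 (isUnit_C.2 (isUnit_iff_ne_zero.2 h))
  have hne : (4 * (C (C n) - X ^ 3) : k[X][X]) ^ 5 ≠ 0 := by
    rw [hpi]
    exact pow_ne_zero _ (mul_ne_zero h4u.ne_zero hπ.ne_zero)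
  have hDs : Dd (ff z) (s.map jj) ≠ 0 := by
    intro h
    rw [h, zero_mul] at e2
    exact hne e2.symm
  have e3 : E = S1 * Ct := by
    apply mul_left_cancel₀ hDs
    rw [e1, ← mul_assoc, e2]
  have hdvd : S1 ∣ (X ^ 3 - C (C n)) ^ 5 := by
    have h1 : S1 ∣ (C (C (-4)) : k[X][X]) ^ 5 * (X ^ 3 - C (C n)) ^ 5 := by
      rw [← mul_pow, ← hpi, ← e2]
      exact dvd_mul_left _ _
    exact ((h4u.pow 5).dvd_mul_left).1 h1
  obtain ⟨i, -, u, hu⟩ := (dvd_prime_pow hπ 5).1 hdvd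
  have hu' : S1 = (X ^ 3 - C (C n)) ^ i * ((u⁻¹ : (k[X][X])ˣ) : k[X][X]) := by
    rw [← hu, mul_assoc, Units.mul_inv, mul_one]
  refine ⟨((u⁻¹ : (k[X][X])ˣ) : k[X][X]) * Ct, x.re, 3 * C X * x.im, (3 * X) ^ 6, i, ?_, ?_, ?_, ?_, ?_⟩
  · apply pow_ne_zero
    apply mul_ne_zero _ X_ne_zero
    rw [← C3, C_ne_zero]
    norm_num
  · exact mul_ne_zero (Units.ne_zero _) hCt0
  · refine natDegree_mul_le.trans ?_
    rw [natDegree_eq_zero_of_isUnit (u⁻¹).isUnit, zero_add]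
    exact hCt
  · have h1 : N1 n x.re (3 * C X * x.im) = 3 * C X * QuadraticAlgebra.norm x := by
      rw [QuadraticAlgebra.norm_def, N1]
      linear_combination ((3 * C X) * x.im ^ 2) * ha + ((3 * C X) ^ 2 * x.im ^ 2) * hg
    have h2 : (C ((3 * X) ^ 6) : k[X][X]) = (3 * C X) ^ 6 := by
      rw [C_pow, C_mul, C3]
    rw [h1, hnorm, e3, hu', h2]
    ring
  · -- the common zero
    have hu2 : (3 * s ^ 2 * w) * (3 * s ^ 2 * w) =
        ev (s ^ 3) z a + ev (s ^ 3) z 0 * (3 * s ^ 2 * w) := by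
      rw [map_zero, zero_mul, add_zero, ha, hg]
      simp only [map_mul, map_sub, map_pow, ev_X, ev_CX, ev_CC, map_ofNat]
      have h := hC.eq
      rw [C_mul] at h
      rw [C4] at h
      linear_combination (3 * s ^ 3) * h
    have hcomp := qhom_comp (a := a) (b := 0) (ev (s ^ 3) z) (3 * s ^ 2 * w) hu2
    have h0 : qhom (ev (s ^ 3) z) (3 * s ^ 2 * w) hu2 x = 0 := by
      rw [hx, ← Dd_map (hm.map ι), Polynomial.map_map, hcomp]
      apply Dd_zero (t := X)
      · rw [hm.natDegree_map, hd]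
        norm_num
      · exact ff_eval _ _
      · rw [hG, Polynomial.map_sub, Polynomial.map_mul, Polynomial.map_mul, map_C, map_C, qhom_omega,
          Polynomial.map_map ι, Polynomial.map_map ι, hcomp, eval_sub, eval_mul,
          eval_mul, eval_C, eval_C, eval_map_ev, eval_map_ev]
        have h3 : qhom (ev (s ^ 3) z) (3 * s ^ 2 * w) hu2 (ι (3 * C X)) = ev (s ^ 3) z (3 * C X) := by
          rw [← RingHom.comp_apply, hcomp]
        rw [h3]
        simp only [map_mul, ev_CX, map_ofNat]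
        ring
    rw [qhom_apply] at h0
    simp only [map_mul, ev_CX, map_ofNat]
    linear_combination s * h0

end PF.Helper66
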