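import Pool.Agent.Helper53.PF.St

/-!
# Project PF (MP_ad0dc2_nt): resultants with a monic polynomial, quadratic algebras

`Dd f g = Res (f, g)` for monic `f`.  It is multiplicative in `g` and depends on `g` modulo `f` only.
-/

set_option autoImplicit false

namespace PF.Helper66

open Polynomial

section

variable {A B : Type*} [CommRing A] [CommRing B]

/-- the resultant with its natural degrees -/
noncomputable def Dd (f g : A[X]) : A := resultant f g f.natDegree g.natDegree

theorem Dd_eq {f g : A[X]} (hf : f.Monic) {n : ℕ} (hn : g.natDegree ≤ n) :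
    resultant f g f.natDegree n = Dd f g := by
  obtain ⟨k, rfl⟩ := Nat.exists_eq_add_of_le hn
  rw [resultant_add_right_deg _ _ _ _ _ le_rfl, coeff_natDegree, hf.leadingCoeff, one_pow, one_mul]
  rfl

theorem Dd_mul {f : A[X]} (hf : f.Monic) (g h : A[X]) : Dd f (g * h) = Dd f g * Dd f h := by
  rw [← Dd_eq hf (natDegree_mul_le (p := g) (q := h)), resultant_mul_right _ _ _ _ le_rfl]
  rfl

theorem Dd_add_mul {f : A[X]} (hf : f.Monic) (g p : A[X]) : Dd f (g + f * p) = Dd f g := by
  have h1 : (g + f * p).natDegree ≤ (g + f * p).natDegree + g.natDegree + (p.natDegree + f.natDegree) := by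
    omega
  have h2 : g.natDegree ≤ (g + f * p).natDegree + g.natDegree + (p.natDegree + f.natDegree) := by
    omega
  rw [← Dd_eq hf h1, ← Dd_eq hf h2, resultant_add_mul_right _ _ _ _ _ (by omega) le_rfl]

theorem Dd_C {f : A[X]} (r : A) : Dd f (C r) = r ^ f.natDegree := by
  unfold Dd
  rw [natDegree_C, resultant_zero_right_deg, coeff_C_zero]

theorem Dd_C_mul {f : A[X]} (hf : f.Monic) (r : A) (g : A[X]) :
    Dd f (C r * g) = r ^ f.natDegree * Dd f g := by
  rw [Dd_mul hf, Dd_C]

theorem Dd_map {f : A[X]} (hf : f.Monic) (φ : A →+* B) (g : A[X]) :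
    Dd (f.map φ) (g.map φ) = φ (Dd f g) := by
  nontriviality B
  have h1 : (f.map φ).natDegree = f.natDegree := hf.natDegree_map φ
  rw [← Dd_eq (hf.map φ) (natDegree_map_le (p := g) (f := φ)), h1, resultant_map_map]
  rfl

/-- a common zero -/
theorem Dd_zero {f g : A[X]} (h : f.natDegree ≠ 0) {t : A} (h1 : f.eval t = 0) (h2 : g.eval t = 0) :
    Dd f g = 0 := by
  obtain ⟨p, q, -, -, e⟩ := exists_mul_add_mul_eq_C_resultant f g (le_refl _) (le_refl _) (Or.inl h)
  have h3 := congrArg (eval t) e
  rw [eval_add, eval_mul, eval_mul, h1, h2, zero_mul, zero_mul, add_zero, eval_C] at h3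
  exact h3.symm

end

section

variable {R S : Type*} [CommRing R] [CommRing S] {a b : R}

/-- the homomorphism from a quadratic algebra given by the image `u` of `ω` -/
noncomputable def qhom (θ : R →+* S) (u : S) (h : u * u = θ a + θ b * u) :
    QuadraticAlgebra R a b →+* S where
  toFun x := θ x.re + θ x.im * u
  map_zero' := by simp
  map_one' := by
    rw [QuadraticAlgebra.re_one, QuadraticAlgebra.im_one, map_one, map_zero, zero_mul, add_zero]
  map_add' x y := by
    rw [QuadraticAlgebra.re_add, QuadraticAlgebra.im_add, map_add, map_add]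
    ring
  map_mul' x y := by
    rw [QuadraticAlgebra.re_mul, QuadraticAlgebra.im_mul]
    simp only [map_add, map_mul]
    linear_combination (-(θ x.im * θ y.im)) * h

theorem qhom_apply (θ : R →+* S) (u : S) (h : u * u = θ a + θ b * u) (x : QuadraticAlgebra R a b) :
    qhom θ u h x = θ x.re + θ x.im * u := rfl

theorem qhom_comp (θ : R →+* S) (u : S) (h : u * u = θ a + θ b * u) :
    (qhom θ u h).comp (algebraMap R (QuadraticAlgebra R a b)) = θ := by
  ext r
  rw [RingHom.comp_apply, qhom_apply, QuadraticAlgebra.algebraMap_re, QuadraticAlgebra.algebraMap_im,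
    map_zero, zero_mul, add_zero]

theorem qhom_omega (θ : R →+* S) (u : S) (h : u * u = θ a + θ b * u) :
    qhom θ u h QuadraticAlgebra.omega = u := by
  rw [qhom_apply, QuadraticAlgebra.omega_re, QuadraticAlgebra.omega_im, map_zero, map_one, zero_add,
    one_mul]

theorem star_comp : (starRingEnd (QuadraticAlgebra R a b)).comp (algebraMap R (QuadraticAlgebra R a b)) =
    algebraMap R (QuadraticAlgebra R a b) := by
  ext r
  · rw [RingHom.comp_apply, starRingEnd_apply, QuadraticAlgebra.re_star, QuadraticAlgebra.algebraMap_im,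
      mul_zero, add_zero]
  · rw [RingHom.comp_apply, starRingEnd_apply, QuadraticAlgebra.im_star, QuadraticAlgebra.algebraMap_im,
      neg_zero]

/-- the norm of a resultant -/
theorem norm_Dd {f : R[X]} (hf : f.Monic) {G : (QuadraticAlgebra R a b)[X]} {H : R[X]}
    (h : G * G.map (starRingEnd _) = H.map (algebraMap R _)) :
    QuadraticAlgebra.norm (Dd (f.map (algebraMap R (QuadraticAlgebra R a b))) G) = Dd f H := by
  apply QuadraticAlgebra.algebraMap_injective (R := R) (a := a) (b := b)
  rw [QuadraticAlgebra.algebraMap_norm_eq_mul_star, ← starRingEnd_apply, ← Dd_map (hf.map _),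
    Polynomial.map_map, star_comp, ← Dd_mul (hf.map _), h, Dd_map hf]

end

section

variable {k : Type} [Field k]

/-- the constants in `k[v][Z]` -/
noncomputable def jj : k →+* k[X][X] := (C : k[X] →+* k[X][X]).comp C

/-- the monic polynomial `ζ⁻¹ (x(T) - Z)` with coefficients in `k[v][Z]` -/
noncomputable def ff (x : k[X]) : k[X][X][X] := C (jj x.leadingCoeff⁻¹) * (x.map jj - C X)

theorem ff_eq {x : k[X]} (hx : x ≠ 0) : x.map jj - C X = C (jj x.leadingCoeff) * ff x := by
  unfold ff
  rw [← mul_assoc, ← C_mul, ← map_mul, mul_inv_cancel₀ (leadingCoeff_ne_zero.2 hx), map_one, C_1, one_mul]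

theorem natDegree_sub (x : k[X]) : (x.map jj - C (X : k[X][X])).natDegree = x.natDegree := by
  rw [natDegree_sub_C, natDegree_map_eq_of_injective (jj : k →+* k[X][X]).injective]

theorem ff_monic {x : k[X]} (hx : 1 ≤ x.natDegree) : (ff x).Monic ∧ (ff x).natDegree = x.natDegree := by
  have hx0 : x ≠ 0 := by
    rintro rfl
    simp at hx
  have h1 := natDegree_sub x
  have h2 : (x.map jj - C (X : k[X][X])).leadingCoeff = jj x.leadingCoeff := by
    rw [leadingCoeff, h1, coeff_sub, coeff_map, coeff_C, if_neg (by omega), sub_zero, coeff_natDegree]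
  have hu : jj x.leadingCoeff⁻¹ * jj x.leadingCoeff = (1 : k[X][X]) := by
    rw [← map_mul, inv_mul_cancel₀ (leadingCoeff_ne_zero.2 hx0), map_one]
  have hne : jj x.leadingCoeff⁻¹ ≠ (0 : k[X][X]) := left_ne_zero_of_mul_eq_one hu
  unfold ff
  constructor
  · rw [Monic, leadingCoeff_mul, leadingCoeff_C, h2, hu]
  · rw [natDegree_C_mul hne, h1]

theorem ev_jj (v y : k[X]) : (ev v y).comp jj = (C : k →+* k[X]) := by
  ext c
  · simp [ev, jj]

theorem ev_X (v y : k[X]) : ev v y X = y := by simp [ev]

theorem ev_CX (v y : k[X]) : ev v y (C X) = v := by simp [ev]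

theorem ev_CC (v y : k[X]) (c : k) : ev v y (C (C c)) = C c := by simp [ev]

/-- the value of `p(T)` at `T = X` after evaluation of the coefficients -/
theorem eval_map_ev (v y p : k[X]) : ((p.map jj).map (ev v y)).eval X = p := by
  rw [Polynomial.map_map, ev_jj, eval_map, eval₂_C_X]

theorem ff_eval (v x : k[X]) : ((ff x).map (ev v x)).eval X = 0 := by
  unfold ff
  rw [Polynomial.map_mul, Polynomial.map_sub, map_C, map_C, eval_mul, eval_sub, eval_map_ev, eval_C, eval_C,
    ev_X, sub_self, mul_zero]

/-- the third resultant has degree at most nine in `Z` -/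
theorem deg_Ct [CharZero k] {x s : k[X]} (hx : 1 ≤ x.natDegree) (hs : s.natDegree = 3) :
    Dd (ff x) (C (C X) - (s.map jj) ^ 3) ≠ 0 ∧ (Dd (ff x) (C (C X) - (s.map jj) ^ 3)).natDegree ≤ 9 := by
  obtain ⟨hm, hd⟩ := ff_monic hx
  let F := AlgebraicClosure (FractionRing k[X])
  let ψ : k[X] →+* F := (algebraMap (FractionRing k[X]) F).comp (algebraMap k[X] (FractionRing k[X]))
  have hψ : Function.Injective ψ :=
    (algebraMap (FractionRing k[X]) F).injective.comp (IsFractionRing.injective k[X] (FractionRing k[X]))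
  let Ψ : k[X][X] →+* F[X] := mapRingHom ψ
  have hΨ : Function.Injective Ψ := map_injective ψ hψ
  have key : Ψ (Dd (ff x) (C (C X) - (s.map jj) ^ 3)) ≠ 0 ∧
      (Ψ (Dd (ff x) (C (C X) - (s.map jj) ^ 3))).natDegree ≤ 9 := by
    rw [← Dd_map hm Ψ]
    have hj : Ψ.comp jj = (C : F →+* F[X]).comp (ψ.comp C) := by
      ext c
      simp [Ψ, jj]
    have e1 : (C (C X) - (s.map jj) ^ 3 : k[X][X][X]).map Ψ = (C (ψ X) - (s.map (ψ.comp C)) ^ 3).map C := by
      rw [Polynomial.map_sub, Polynomial.map_sub, Polynomial.map_pow, Polynomial.map_pow, map_C, map_C,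
        Polynomial.map_map, Polynomial.map_map, hj]
      congr 2
      simp [Ψ]
    have hdeg : (s.map (ψ.comp C)).natDegree = 3 := by
      rw [natDegree_map_eq_of_injective (ψ.comp C).injective, hs]
    set h₀ : F[X] := C (ψ X) - (s.map (ψ.comp C)) ^ 3 with hh₀
    have hdeg₀ : h₀.natDegree = 9 := by
      rw [hh₀, ← neg_sub, natDegree_neg, natDegree_sub_C, natDegree_pow, hdeg]
    have hsp : h₀.Splits := IsAlgClosed.splits h₀
    have hdeg₁ : (h₀.map (C : F →+* F[X])).natDegree = 9 := by
      rw [natDegree_map_eq_of_injective C_injective, hdeg₀]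
    have hfm := hm.map Ψ
    have hfd : ((ff x).map Ψ).natDegree = x.natDegree := by rw [hm.natDegree_map, hd]
    rw [e1, ← Dd_eq hfm (le_refl _), resultant_comm, hfd]
    rw [resultant_eq_prod_eval _ _ _ hfd.le (hsp.map _), hsp.roots_map, Multiset.map_map]
    have hz : ∀ τ : F, eval (C τ) ((ff x).map Ψ) ≠ 0 ∧ (eval (C τ) ((ff x).map Ψ)).natDegree ≤ 1 := by
      intro τ
      have hx0 : x ≠ 0 := by
        rintro rfl
        simp at hx
      have e2 : eval (C τ) ((ff x).map Ψ) = C (ψ (C x.leadingCoeff⁻¹)) *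
          (C (eval τ (x.map (ψ.comp C))) - X) := by
        unfold ff
        rw [Polynomial.map_mul, Polynomial.map_sub, map_C, map_C, Polynomial.map_map, hj, eval_mul, eval_sub,
          eval_C, eval_C, ← Polynomial.map_map, eval_map, eval₂_at_apply]
        congr 1
        · simp [Ψ, jj]
        · simp [Ψ]
      rw [e2]
      have hne : ψ (C x.leadingCoeff⁻¹) ≠ 0 := by
        rw [map_ne_zero_iff ψ hψ, C_ne_zero]
        exact inv_ne_zero (leadingCoeff_ne_zero.2 hx0)
      constructor
      · apply mul_ne_zero (C_ne_zero.2 hne)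
        intro h
        have := congrArg (fun p => coeff p 1) h
        simp at this
      · refine (natDegree_C_mul_le _ _).trans ?_
        refine (natDegree_sub_le _ _).trans ?_
        simp
    constructor
    · apply mul_ne_zero
      · exact pow_ne_zero _ (neg_ne_zero.2 one_ne_zero)
      · apply mul_ne_zero
        · apply pow_ne_zero
          rw [leadingCoeff_ne_zero]
          intro h
          rw [h] at hdeg₁
          simp at hdeg₁
        · apply Multiset.prod_ne_zero
          intro h
          obtain ⟨τ, -, hτ⟩ := Multiset.mem_map.1 h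
          exact (hz τ).1 hτ
    · have hc : ∀ (e m : ℕ) (a : F), ((-1 : F[X]) ^ e * (C a) ^ m).natDegree = 0 := by
        intro e m a
        rw [← C_1, ← C_neg, ← C_pow, ← C_pow, ← C_mul, natDegree_C]
      have hl : (h₀.map (C : F →+* F[X])).leadingCoeff = C h₀.leadingCoeff :=
        leadingCoeff_map_of_injective C_injective _
      rw [hl, ← mul_assoc]
      refine natDegree_mul_le.trans ?_
      rw [hc, zero_add]
      refine (natDegree_multiset_prod_le _).trans ?_
      rw [Multiset.map_map]
      have h1 : (Multiset.map (natDegree ∘ (fun x_1 => eval x_1 ((ff x).map Ψ)) ∘ ⇑(C : F →+* F[X])) h₀.roots).sum ≤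
          Multiset.card (Multiset.map (natDegree ∘ (fun x_1 => eval x_1 ((ff x).map Ψ)) ∘ ⇑(C : F →+* F[X])) h₀.roots) • 1 := by
        apply Multiset.sum_le_card_nsmul
        intro n hn
        obtain ⟨τ, -, rfl⟩ := Multiset.mem_map.1 hn
        exact (hz τ).2
      refine h1.trans ?_
      rw [Multiset.card_map, smul_eq_mul, mul_one]
      exact (card_roots' h₀).trans hdeg₀.le
  constructor
  · intro h
    apply key.1
    rw [h, map_zero]
  · have h1 : (Ψ (Dd (ff x) (C (C X) - (s.map jj) ^ 3))).natDegree =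
        (Dd (ff x) (C (C X) - (s.map jj) ^ 3)).natDegree := natDegree_map_eq_of_injective hψ _
    rw [← h1]
    exact key.2

end

end PF.Helper66
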